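import Pool.Agent.V1198.SPT3

/-!
# The symmetric projective tensor square of `c_0` is not almost square
-/

set_option autoImplicit false
set_option linter.unusedSectionVars false
set_option linter.unusedVariables false

noncomputable section

open Filter Topology
open scoped TensorProduct Pointwise ZeroAtInfty

namespace Pool.Agent.Results.MP_b5276a_an.CZero

open Pool.Agent.V1198.SPT

theorem Tr_eq_fv (n : ℕ) (x : C0) : Tr n x = fv (fun i : Fin n => x i) := by
  rw [Tr_eq, fv]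

section

variable {y : SymProj 2 C0} {ε : ℝ}
  (hy : ∀ F : SymProj 2 C0 →L[ℝ] ℝ, (∀ x, |F (th x)| ≤ ‖x‖ ^ 2) → |F (th cd.e)| + |F y| ≤ 1 + ε)

include hy

/-- The truncations of functionals are small at `y`. -/
theorem est_trunc (hε : 0 < ε) (hε1 : ε ≤ 1 / 4) {f : SymProj 2 C0 →L[ℝ] ℝ}
    (hf : ∀ x, |f (th x)| ≤ ‖x‖ ^ 2) (n : ℕ) {g : SymProj 2 C0 →L[ℝ] ℝ}
    (hg : ∀ x, g (th x) = f (th (Tr (n + 1) x))) : |g y| ≤ 23055 * √ε := by
  obtain ⟨B, hs, hB⟩ := exists_bilin f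
  have hB' : ∀ x, |B x x| ≤ ‖x‖ ^ 2 := fun x => by rw [← hB]; exact hf x
  obtain ⟨ν, hν0, hν1, hν⟩ := exists_weights hs hB' n
  -- the diagonal form
  set Bd : C0 →ₗ[ℝ] C0 →ₗ[ℝ] ℝ := ∑ i : Fin (n + 1), ν i • (dl i).smulRight (dl i) with hBd
  have hBda : ∀ x, Bd x x = ∑ i : Fin (n + 1), ν i * x i ^ 2 := fun x => by
    rw [hBd, LinearMap.sum_apply, LinearMap.sum_apply]
    refine Finset.sum_congr rfl fun i _ => ?_
    change ν i * (x i * x i) = _
    ring
  have hBd0 : ∀ x, 0 ≤ Bd x x := fun x => by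
    rw [hBda]
    exact Finset.sum_nonneg fun i _ => mul_nonneg (hν0 i) (sq_nonneg _)
  have hBd1 : ∀ x, Bd x x ≤ ‖x‖ ^ 2 := fun x => by
    rw [hBda]
    calc ∑ i : Fin (n + 1), ν i * x i ^ 2 ≤ ∑ i : Fin (n + 1), ν i * ‖x‖ ^ 2 := by
          refine Finset.sum_le_sum fun i _ => mul_le_mul_of_nonneg_left ?_ (hν0 i)
          rw [← sq_abs]
          exact pow_le_pow_left₀ (abs_nonneg _) (C0_apply_le x i) 2
      _ = ‖x‖ ^ 2 := by rw [← Finset.sum_mul, hν1, one_mul]
  obtain ⟨D, hD⟩ := exists_functional₂ Bd zero_le_one (fun x => by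
    rw [abs_of_nonneg (hBd0 x), one_mul]; exact hBd1 x)
  have hDy := est_final hy hε hε1 (R := D) (fun x => by rw [hD]; exact hBd0 x)
    fun x => by rw [hD]; exact hBd1 x
  -- the difference
  set R : SymProj 2 C0 →L[ℝ] ℝ := (769 : ℝ)⁻¹ • ((768 : ℝ) • D - g) with hR
  have hRa : ∀ z, R z = (769 : ℝ)⁻¹ * (768 * D z - g z) := fun z => rfl
  have hRy := est_final hy hε hε1 (R := R) (fun x => by
    rw [hRa, hD, hg, hB, hBda, Tr_eq_fv]
    have := hν fun i => x i
    exact mul_nonneg (by norm_num) (by linarith)) (fun x => by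
    rw [hRa, hD, hg]
    have h1 := hf (Tr (n + 1) x)
    have h2 := Tr_norm_le (n + 1) x
    have h3 := pow_le_pow_left₀ (norm_nonneg _) h2 2
    have h4 := hBd1 x
    rw [abs_le] at h1
    linarith [h1.1])
  have h1 : g y = 768 * D y - 769 * R y := by
    rw [hRa]
    ring
  rw [h1]
  refine (abs_sub _ _).trans ?_
  rw [abs_mul, abs_mul, abs_of_pos (by norm_num : (0 : ℝ) < 768),
    abs_of_pos (by norm_num : (0 : ℝ) < 769)]
  linarith

end

theorem norm_th_e : ‖(th cd.e : SymProj 2 C0)‖ = 1 := by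
  refine le_antisymm ?_ ?_
  · refine (norm_th_le _).trans ?_
    exact pow_le_one₀ (norm_nonneg _) cd.e_le
  · obtain ⟨E, hE⟩ := exists_rank_one cd.d_le cd.d_le
    have h1 : ‖E‖ ≤ 1 := norm_le_of zero_le_one fun x => by
      rw [hE]; exact rank_one_le cd.d_le cd.d_le x
    have h2 := E.le_opNorm (th cd.e)
    rw [hE, cd.d_e, one_mul, norm_one] at h2
    exact h2.trans ((mul_le_mul_of_nonneg_right h1 (norm_nonneg _)).trans (one_mul _).le)

theorem not_ASQ : ¬ ASQ (SymProj 2 C0) := by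
  intro h
  set ε : ℝ := (1 / 30000) ^ 2 with hε
  have hε0 : 0 < ε := by positivity
  obtain ⟨y, hy1, hy2⟩ := h 1 (fun _ => th cd.e) (fun _ => norm_th_e) ε hε0
  obtain ⟨hp, hm⟩ := hy2 0
  have hy : ∀ F : SymProj 2 C0 →L[ℝ] ℝ, (∀ x, |F (th x)| ≤ ‖x‖ ^ 2) →
      |F (th cd.e)| + |F y| ≤ 1 + ε := by
    intro F hF
    have h1 : ‖F‖ ≤ 1 := norm_le_of zero_le_one fun x => by rw [one_mul]; exact hF x
    have h2 : |F (th cd.e) + F y| ≤ 1 + ε := by
      rw [← map_add]
      exact (F.le_opNorm _).trans ((mul_le_mul h1 hp (norm_nonneg _) zero_le_one).trans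
        (one_mul _).le)
    have h3 : |F (th cd.e) - F y| ≤ 1 + ε := by
      rw [← map_sub]
      exact (F.le_opNorm _).trans ((mul_le_mul h1 hm (norm_nonneg _) zero_le_one).trans
        (one_mul _).le)
    rw [abs_le] at h2 h3
    rcases abs_cases (F (th cd.e)) with ⟨h4, -⟩ | ⟨h4, -⟩ <;>
    rcases abs_cases (F y) with ⟨h5, -⟩ | ⟨h5, -⟩ <;> rw [h4, h5] <;>
    linarith [h2.1, h2.2, h3.1, h3.2]
  obtain ⟨f, hf1, hf2⟩ := exists_dual_vector ℝ y (by rw [hy1]; exact one_ne_zero)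
  have hf2' : f y = 1 := by rw [hf2, hy1]; rfl
  have hf : ∀ x : C0, |f (th x)| ≤ ‖x‖ ^ 2 := fun x => by
    refine (f.le_opNorm _).trans ?_
    rw [hf1, one_mul]
    exact norm_th_le x
  obtain ⟨B, hs, hB⟩ := exists_bilin f
  have hg : ∀ n : ℕ, ∃ g : SymProj 2 C0 →L[ℝ] ℝ, ∀ x, g (th x) = f (th (Tr (n + 1) x)) := by
    intro n
    obtain ⟨g, hg⟩ := exists_functional₂ (B.compl₁₂ (Tr (n + 1)) (Tr (n + 1))) zero_le_one
      (fun x => by
        change |B (Tr (n + 1) x) (Tr (n + 1) x)| ≤ _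
        rw [← hB, one_mul]
        exact (hf _).trans (pow_le_pow_left₀ (norm_nonneg _) (Tr_norm_le _ x) 2))
    exact ⟨g, fun x => by rw [hg, hB]; rfl⟩
  choose g hg using hg
  have hg1 : ∀ n, ‖g n‖ ≤ 1 := fun n => norm_le_of zero_le_one fun x => by
    rw [hg, one_mul]
    exact (hf _).trans (pow_le_pow_left₀ (norm_nonneg _) (Tr_norm_le _ x) 2)
  -- `g n` tends to `f` on the span
  have hth : Continuous fun x : C0 => f (th x) := by
    have h1 : ∀ x, f (th x) = B x x := hB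
    have hbd : ∀ a b : C0, |B a b| ≤ 2 * ‖a‖ * ‖b‖ := by
      intro a b
      rcases eq_or_ne a 0 with rfl | ha
      · simp
      rcases eq_or_ne b 0 with rfl | hb
      · simp
      have ha' : 0 < ‖a‖ := norm_pos_iff.2 ha
      have hb' : 0 < ‖b‖ := norm_pos_iff.2 hb
      have h2 := bilin_le hs (fun x => by rw [← hB]; exact hf x)
        (a := ‖a‖⁻¹ • a) (b := ‖b‖⁻¹ • b)
        (by rw [norm_smul, norm_inv, norm_norm, inv_mul_cancel₀ ha'.ne'])
        (by rw [norm_smul, norm_inv, norm_norm, inv_mul_cancel₀ hb'.ne'])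
      rw [map_smul, map_smul, LinearMap.smul_apply, smul_eq_mul, smul_eq_mul, abs_mul, abs_mul,
        abs_of_pos (inv_pos.2 ha'), abs_of_pos (inv_pos.2 hb')] at h2
      rw [← mul_assoc, ← div_eq_inv_mul] at h2
      have h3 : ‖b‖⁻¹ / ‖a‖ * |B a b| = |B a b| / (‖a‖ * ‖b‖) := by field_simp
      have h4 : ‖b‖⁻¹ / ‖a‖ * |B a b| ≤ 2 := by
        first
          | exact h2
          | (have : ‖a‖⁻¹ / ‖b‖ * |B a b| = ‖b‖⁻¹ / ‖a‖ * |B a b| := by field_simp
             rw [← this]; exact h2)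
      rw [h3, div_le_iff₀ (by positivity)] at h4
      linarith
    have h2 : Continuous fun p : C0 × C0 => B p.1 p.2 :=
      (LinearMap.mkContinuous₂ B 2 hbd).continuous₂
    have h3 : Continuous fun x : C0 => B x x := h2.comp (continuous_id.prodMk continuous_id)
    simpa only [h1] using h3
  have hconv : ∀ x : C0, Tendsto (fun n => g n (th x)) atTop (𝓝 (f (th x))) := by
    intro x
    simp only [hg]
    exact (hth.tendsto x).comp ((Tr_tendsto x).comp (tendsto_add_atTop_nat 1))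
  have hspan : ∀ z ∈ Submodule.span ℝ (Set.range (th : C0 → SymProj 2 C0)),
      Tendsto (fun n => g n z) atTop (𝓝 (f z)) := by
    intro z hz
    refine Submodule.span_induction ?_ ?_ ?_ ?_ hz
    · rintro _ ⟨x, rfl⟩
      exact hconv x
    · simp only [map_zero]
      exact tendsto_const_nhds
    · intro a b _ _ ha hb
      simp only [map_add]
      exact ha.add hb
    · intro c a _ ha
      simp only [map_smul]
      exact ha.const_smul c
  obtain ⟨z, hz, hzy⟩ := Metric.mem_closure_iff.1 (dense_span y) (1 / 100) (by norm_num)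
  obtain ⟨n, hn⟩ := (Metric.tendsto_atTop.1 (hspan z hz) (1 / 100) (by norm_num))
  have h1 := hn n le_rfl
  have h2 := est_trunc hy hε0 (by rw [hε]; norm_num) hf n (hg n)
  have h3 : √ε = 1 / 30000 := by rw [hε]; exact Real.sqrt_sq (by norm_num)
  rw [h3] at h2
  rw [Real.dist_eq] at h1
  rw [dist_eq_norm] at hzy
  have h4 : |g n y - g n z| ≤ 1 / 100 := by
    rw [← map_sub]
    exact ((g n).le_opNorm _).trans ((mul_le_mul (hg1 n) hzy.le (norm_nonneg _)
      zero_le_one).trans (one_mul _).le)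
  have h5 : |f y - f z| ≤ 1 / 100 := by
    rw [← map_sub]
    exact (f.le_opNorm _).trans ((mul_le_mul hf1.le hzy.le (norm_nonneg _)
      zero_le_one).trans (one_mul _).le)
  rw [hf2'] at h5
  rw [abs_le] at h2 h4 h5
  rw [abs_lt] at h1
  linarith [h1.1, h1.2, h2.1, h2.2, h4.1, h4.2, h5.1, h5.2]

/-- `c_0` is almost square but its symmetric projective tensor square is not. -/
theorem result : ASQ C₀(ℕ, ℝ) ∧ ¬ ASQ (SymProj 2 C₀(ℕ, ℝ)) := ⟨ASQ_C0, not_ASQ⟩

end Pool.Agent.Results.MP_b5276a_an.CZero
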